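import Pool.Agent.D0H30.ES.Stmt
import Pool.Agent.D0H30.ES.Fin2

set_option autoImplicit false

/-! # The endpoint Strichartz estimate for orthonormal systems, with `ℓ^{p,1}` coefficients

For every `d ≥ 2` the estimate `(E_d)` holds:
`‖∑_j λ_j |e^{itΔ} f_j|²‖_{L^p_t L^q_x} ≤ C(d) ‖λ‖_{ℓ^{p,1}}`, `p = (d+1)/d`, `q = (d+1)/(d-1)`.

The definitions (`symbol`, `propagator`, `mixedNorm`, `rearr`, `lorentzNorm`, `density`, `Estimate`)
are in `Pool/Agent/D0H30/ES/Stmt.lean`. -/

namespace Pool.Agent.Results.MP_dacecb_an.EndpointStrichartz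

open MeasureTheory Pool.Agent.D0H30.ES Pool.Agent.D0H30.ES.Stmt
open scoped ENNReal NNReal

/-- For every `d ≥ 2` there is `C = C(d)` such that, for every countable orthonormal system
`(f_j)` in `L²(ℝ^d)` and all coefficients `lam` with finite `ℓ^{p,1}` norm, `p = (d+1)/d`:
the series `∑_j lam_j |e^{itΔ} f_j(x)|²` converges absolutely for a.e. `t` and a.e. `x`; its sum is,
for every `t`, a.e. equal to a jointly measurable function of `(t, x)`; and
`‖∑_j lam_j |e^{itΔ} f_j|²‖_{L^p_t L^q_x} ≤ C ‖lam‖_{ℓ^{p,1}}`, `q = (d+1)/(d-1)`. -/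
theorem result (d : ℕ) (hd : 2 ≤ d) :
    Estimate (EuclideanSpace ℝ (Fin d)) (((d : ℝ) + 1) / d) (((d : ℝ) + 1) / (d - 1)) := by
  refine ⟨(CE d).toNNReal, fun ι _ f hfo lam hlam => ⟨summable_density hd lam f hfo hlam.ne,
    measurable_density lam f, ?_⟩⟩
  rw [ENNReal.coe_toNNReal (CE_ne_top hd)]
  have hp := pp_one_le hd
  have hq := qq_one_le hd
  exact (mixedNorm_density_le (p := pp d) (q := qq d) (by linarith) (by linarith) lam f).trans
    (mn_maj_le hd lam f hfo hlam.ne)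

end Pool.Agent.Results.MP_dacecb_an.EndpointStrichartz
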